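import Pool.Agent.N659.HB.Stm12

/-!
Project HW, part ASYW (helper955; adapted from helper281's ASYV): choice of the numbers in high
dimension, any bounded law, all couplings.
-/

set_option autoImplicit false

namespace Pool.Agent.N955.HW.AsyW

open Filter Pool.Agent.N659.HB
open scoped Topology

/-- the constant in the bound of the denominator -/
noncomputable def K0 (A C w : ℝ) : ℝ := 8 / A + 1 + 12 * (w ^ 2 * C) / A + 2 / A

/-- the constant in the lower bound of `etaG` -/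
noncomputable def h0 (A c w s₂ : ℝ) : ℝ := w ^ 2 * s₂ * c / (180 * A)

/-- the constant in the bound of `cG` -/
noncomputable def c1 (A C c w s₂ : ℝ) : ℝ :=
  h0 A c w s₂ ^ 3 * (1 / A) ^ 2 / (4 * K0 A C w ^ 4)

theorem K0_pos {A C w : ℝ} (hA : 0 < A) (hC : 0 < C) (hw : 0 < w) : 0 < K0 A C w := by
  unfold K0; positivity

theorem h0_pos {A c w s₂ : ℝ} (hA : 0 < A) (hc : 0 < c) (hw : 0 < w)
    (hs₂ : 0 < s₂) : 0 < h0 A c w s₂ := by
  unfold h0; positivity

theorem c1_pos {A C c w s₂ : ℝ} (hA : 0 < A) (hC : 0 < C) (hc : 0 < c) (hw : 0 < w)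
    (hs₂ : 0 < s₂) : 0 < c1 A C c w s₂ := by
  have := K0_pos hA hC hw
  have := h0_pos hA hc hw hs₂
  unfold c1; positivity

theorem core (d n : ℕ) (A C c w s₂ L K M : ℝ) (hA : 0 < A) (hC : 0 < C) (hc : 0 < c) (hw : 0 < w)
    (hs₂ : 0 < s₂) (hs₂1 : s₂ ≤ 1) (hM1 : 1 ≤ M * L) (hM2 : M ^ 2 * L ^ 4 ≤ Real.sqrt d)
    (hM0 : 0 < M)
    (hK2 : 2 ≤ K) (hLK : K ≤ L) (hn1 : L ≤ n) (hn2 : (n : ℝ) ≤ 2 * L)
    (hs5 : K * L ^ 5 ≤ Real.sqrt d) (hLe : Real.exp L = d)
    (k0 : C ≤ K) (k1 : 192 * (w ^ 2 * C) ≤ K) (k2 : 4 * A ≤ K) (k3 : 65536 * (w ^ 2 * C) ≤ K)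
    (k5 : (72000 * C) ^ 2 * (16 * (w ^ 2 * C)) / (s₂ * c) ^ 2 ≤ K)
    (k6 : 17280 * (w * C) ^ 2 / c ≤ K)
    (k7 : c / (2 * C) ≤ K) (k8 : w ^ 2 ≤ K) (k9 : 2 / (A * c1 A C c w s₂ * C) ≤ K)
    (k10 : 1024 * (w ^ 2 * C) * Real.exp 15 ≤ K) (k11 : 1 / (16 * (w ^ 2 * C)) ≤ K) :
    A ≤ 2 * Real.sqrt d ∧
    1 / Real.sqrt d ≤ M ^ 2 * L ^ 4 / (2 * Real.sqrt d) ∧
    M ^ 2 * L ^ 4 / (2 * Real.sqrt d) ≤ 1 ∧ M * w ≤ Real.sqrt d ∧
    NG n (2 * Real.sqrt d / A * (M * w)) (M ^ 2 * L ^ 4 / A)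
      (2 * (M * w) * C * L / Real.sqrt d)
      (Real.sqrt (2 * (M * w) * C * L / Real.sqrt d
        * (4 * (2 * Real.sqrt d / A * (M * w)) / (M ^ 2 * L ^ 4 / A))))
      s₂ (M * w * c / Real.sqrt d)
      ((M * w) ^ 2 * C / (M ^ 2 * L ^ 4 / (2 * Real.sqrt d) * Real.sqrt d))
      (2 * Real.sqrt d / A * (4 * d)) := by
  set x : ℝ := (d : ℝ) with hx
  set s : ℝ := Real.sqrt x with hs
  have hL2 : 2 ≤ L := hK2.trans hLK
  have hL1 : 1 ≤ L := by linarith only [hL2]
  have hL0 : 0 < L := by linarith only [hL2]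
  have hK0' : 0 < K := by linarith only [hK2]
  have hpow : ∀ k : ℕ, 1 ≤ k → L ≤ L ^ k := fun k hk => le_self_pow₀ hL1 (by omega)
  have hL3 : L ≤ L ^ 3 := hpow 3 (by norm_num)
  have hL4 : L ≤ L ^ 4 := hpow 4 (by norm_num)
  have hL5 : L ≤ L ^ 5 := hpow 5 (by norm_num)
  have hL45 : L ^ 4 ≤ L ^ 5 := pow_le_pow_right₀ hL1 (by norm_num)
  have hL35 : L ^ 3 ≤ L ^ 5 := pow_le_pow_right₀ hL1 (by norm_num)
  have hL14 : 1 ≤ L ^ 4 := one_le_pow₀ hL1
  have hL5s : L ^ 5 ≤ s := by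
    refine le_trans ?_ hs5
    have : 0 ≤ L ^ 5 := by positivity
    nlinarith only [this, hK2]
  have hL4s : L ^ 4 ≤ s := hL45.trans hL5s
  have hKs : K ≤ s := by linarith only [hLK, hL5, hL5s]
  have hs0 : 0 < s := by linarith only [hKs, hK0']
  have hs1 : 1 ≤ s := by linarith only [hKs, hK2]
  have hx0 : 0 < x := Real.sqrt_pos.1 hs0
  have hss : s * s = x := Real.mul_self_sqrt hx0.le
  have hsx : s ≤ x := by nlinarith only [hss, hs1]
  have hx1 : 1 ≤ x := by linarith only [hsx, hs1]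
  have hKx : K ≤ x := hKs.trans hsx
  -- the coupling
  have hMM : 0 < M ^ 2 := by positivity
  have hMs : M ^ 2 ≤ s := by
    refine le_trans ?_ hM2
    nlinarith only [hMM, hL14]
  have hMs1 : M ≤ s := by
    refine (sq_le_sq₀ hM0.le hs0.le).1 ?_
    nlinarith only [hMs, hs1]
  have hML : 1 ≤ M ^ 2 * L ^ 2 := by
    have : (M * L) ^ 2 = M ^ 2 * L ^ 2 := by ring
    rw [← this]
    exact one_le_pow₀ hM1
  have hML4 : L ^ 2 ≤ M ^ 2 * L ^ 4 := by
    have h1 : M ^ 2 * L ^ 4 = (M ^ 2 * L ^ 2) * L ^ 2 := by ring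
    rw [h1]
    have h2 : 0 ≤ L ^ 2 := by positivity
    nlinarith only [h2, hML]
  have hL24 : 4 ≤ L ^ 2 := by nlinarith only [hL2]
  have hM1' : M ^ 2 * L ≤ M ^ 2 * L ^ 4 := mul_le_mul_of_nonneg_left hL4 hMM.le
  have hb : 2 * (M * w) * C * L / s * (4 * (2 * s / A * (M * w)) / (M ^ 2 * L ^ 4 / A)) =
      16 * (w ^ 2 * C) / L ^ 3 := by
    field_simp
    ring
  have hκpos : 0 < 16 * (w ^ 2 * C) / L ^ 3 := by positivity
  have h4α : 4 * (2 * s / A * (M * w)) / (M ^ 2 * L ^ 4 / A) = 8 * s * w / (M * L ^ 4) := by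
    field_simp
    ring
  have hΛe : (M * w) ^ 2 * C / (M ^ 2 * L ^ 4 / (2 * s) * s) = 2 * (w ^ 2 * C) / L ^ 4 := by
    field_simp
  set κ : ℝ := Real.sqrt (2 * (M * w) * C * L / s *
    (4 * (2 * s / A * (M * w)) / (M ^ 2 * L ^ 4 / A))) with hκ
  have hκ0 : 0 < κ := by rw [hκ, hb]; exact Real.sqrt_pos.2 hκpos
  have hκsq : κ ^ 2 = 16 * (w ^ 2 * C) / L ^ 3 := by
    rw [hκ, Real.sq_sqrt (by rw [hb]; exact hκpos.le), hb]
  have hn0 : 1 ≤ n := by
    have : (1 : ℝ) ≤ n := hL1.trans hn1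
    exact_mod_cast this
  refine ⟨?_, ?_, ?_, ?_, ?_⟩
  · linarith only [k2, hKs, hA]
  · rw [div_le_div_iff₀ hs0 (by positivity)]
    have h1 : 2 ≤ M ^ 2 * L ^ 4 := by linarith only [hML4, hL24]
    nlinarith only [h1, hs0]
  · rw [div_le_one (by positivity)]
    linarith only [hM2, hs0]
  · refine (sq_le_sq₀ (by positivity) hs0.le).1 ?_
    have h1 : w ^ 2 ≤ s := k8.trans hKs
    have h2 : (M * w) ^ 2 = M ^ 2 * w ^ 2 := by ring
    rw [h2, sq s]
    exact mul_le_mul hMs h1 (by positivity) hs0.le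
  refine
    { hn := hn0
      hα := by positivity
      hr := by positivity
      hb := by positivity
      hκ := hκ0
      hs := hs₂
      hs1 := hs₂1
      hc := by positivity
      hΛ := by positivity
      hD := by positivity
      κ2 := by rw [hκsq, hb]
      e1 := ?_
      e2 := ?_
      e2' := ?_
      e3 := ?_
      e4 := ?_
      e5 := ?_
      e6 := ?_
      e7 := ?_
      e8 := ?_ }
  · -- e1
    rw [hb, hΛe]
    rw [← mul_div_assoc, div_le_div_iff₀ (by positivity) (by positivity)]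
    have h1 : 4 * (2 * (w ^ 2 * C)) * L ^ 3 ≤ 16 * (w ^ 2 * C) * L ^ 3 := by
      have : 0 ≤ (w ^ 2 * C) * L ^ 3 := by positivity
      linarith only [this]
    have h2 : 16 * (w ^ 2 * C) * L ^ 3 ≤ 16 * (w ^ 2 * C) * L ^ 4 := by
      have : L ^ 3 ≤ L ^ 4 := pow_le_pow_right₀ hL1 (by norm_num)
      exact mul_le_mul_of_nonneg_left this (by positivity)
    exact h1.trans h2
  · -- e2
    have e : 48 * (2 * s / A * (M * w)) * (2 * (M * w) * C * L / s) =
        M ^ 2 * (192 * (w ^ 2 * C) * L) / A := by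
      field_simp
      ring
    rw [e]
    refine div_le_div_of_nonneg_right ?_ hA.le
    refine mul_le_mul_of_nonneg_left ?_ hMM.le
    calc 192 * (w ^ 2 * C) * L ≤ L ^ 3 * L :=
          mul_le_mul_of_nonneg_right (by linarith only [k1, hLK, hL3]) hL0.le
      _ = L ^ 4 := by ring
  · -- e2'
    rw [h4α, div_le_div_iff₀ hs0 (by positivity)]
    have h1 : C * L ^ 5 ≤ s := (mul_le_mul_of_nonneg_right k0 (by positivity)).trans hs5
    have h1' : C * L ≤ s := by
      refine le_trans ?_ h1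
      exact mul_le_mul_of_nonneg_left hL5 hC.le
    have h2 : 2 * (M * w) * C * L * (M * L ^ 4) = w * (2 * ((C * L) * (M ^ 2 * L ^ 4))) := by ring
    have h3 : 8 * s * w * s = w * (8 * (s * s)) := by ring
    rw [h2, h3]
    refine mul_le_mul_of_nonneg_left ?_ hw.le
    have h4 : (C * L) * (M ^ 2 * L ^ 4) ≤ s * s := mul_le_mul h1' hM2 (by positivity) hs0.le
    have h5 : 0 ≤ s * s := by positivity
    linarith only [h4, h5]
  · -- e3
    have h1 : (64 * κ) ^ 2 ≤ 1 := by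
      have e : (64 * κ) ^ 2 = 65536 * (w ^ 2 * C) / L ^ 3 := by
        rw [mul_pow, hκsq]; ring
      rw [e, div_le_one (by positivity)]
      linarith only [k3, hLK, hL3]
    have h2 : 0 ≤ 64 * κ := by positivity
    exact (sq_le_one_iff₀ h2).1 h1
  · -- e4
    have h1 : (32 * L * κ) ^ 2 ≤ 1 := by
      have e : (32 * L * κ) ^ 2 = 16384 * (w ^ 2 * C) / L := by
        rw [mul_pow, hκsq]; field_simp; ring
      rw [e, div_le_one hL0]
      have : 0 ≤ w ^ 2 * C := by positivity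
      linarith only [k3, hLK, this]
    have h2 : 0 ≤ 32 * L * κ := by positivity
    have h3 : 32 * L * κ ≤ 1 := (sq_le_one_iff₀ h2).1 h1
    have h4 : 16 * (n : ℝ) * κ ≤ 16 * (2 * L) * κ := by gcongr
    have h5 : 16 * (2 * L) * κ = 32 * L * κ := by ring
    linarith only [h3, h4, h5]
  · -- e5
    have h1 : (72000 * C * L * κ) ^ 2 ≤ (s₂ * c) ^ 2 := by
      have e : (72000 * C * L * κ) ^ 2 = (72000 * C) ^ 2 * (16 * (w ^ 2 * C)) / L := by
        rw [mul_pow, hκsq]; field_simp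
      rw [e, div_le_iff₀ hL0]
      rw [div_le_iff₀ (by positivity)] at k5
      calc (72000 * C) ^ 2 * (16 * (w ^ 2 * C)) ≤ K * (s₂ * c) ^ 2 := k5
        _ ≤ L * (s₂ * c) ^ 2 := mul_le_mul_of_nonneg_right hLK (by positivity)
        _ = (s₂ * c) ^ 2 * L := by ring
    have h2 : 72000 * C * L * κ ≤ s₂ * c := (sq_le_sq₀ (by positivity) (by positivity)).1 h1
    rw [le_div_iff₀ (by positivity)]
    have e : 50 * (2 * (M * w) * C * L / s) * κ * 720 = M * w / s * (72000 * C * L * κ) := by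
      field_simp
      ring
    have e' : s₂ * (M * w * c / s) = M * w / s * (s₂ * c) := by
      field_simp
    rw [e, e']; exact mul_le_mul_of_nonneg_left h2 (by positivity)
  · -- e6
    rw [hΛe, le_div_iff₀ (by positivity)]
    have e : 6 * (2 * (M * w) * C * L / s) * (2 * (w ^ 2 * C) / L ^ 4) * 720 =
        M * w / s * (17280 * (w * C) ^ 2 / L ^ 3) := by
      field_simp
      ring
    have e' : M * w * c / s = M * w / s * c := by
      field_simp
    rw [e, e']
    refine mul_le_mul_of_nonneg_left ?_ (by positivity)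
    rw [div_le_iff₀ (by positivity)]
    rw [div_le_iff₀ hc] at k6
    have : K ≤ L ^ 3 := by linarith only [hLK, hL3]
    have h9 : K * c ≤ L ^ 3 * c := mul_le_mul_of_nonneg_right this hc.le
    linarith only [h9, k6]
  · -- e7
    rw [div_le_div_iff_of_pos_right hs0]
    rw [div_le_iff₀ (by positivity)] at k7
    have h2 : K * (2 * C) ≤ L * (2 * C) := mul_le_mul_of_nonneg_right hLK (by positivity)
    have h3 : (M * w) * c ≤ (M * w) * (L * (2 * C)) :=
      mul_le_mul_of_nonneg_left (k7.trans h2) (by positivity)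
    linarith only [h3]
  · -- e8
    have hη : h0 A c w s₂ / x ≤ etaG (2 * s / A * (M * w)) s₂ (M * w * c / s) := by
      have e : etaG (2 * s / A * (M * w)) s₂ (M * w * c / s) =
          M ^ 2 * (w ^ 2 * s₂ * c / (180 * A)) := by
        unfold etaG
        field_simp
        ring
      rw [e, div_le_iff₀ hx0]
      unfold h0
      have h1 : 1 ≤ M ^ 2 * x := by
        refine hML.trans (mul_le_mul_of_nonneg_left ?_ hMM.le)
        have h2 : L ^ 2 ≤ L ^ 5 := pow_le_pow_right₀ hL1 (by norm_num)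
        linarith only [h2, hL5s, hsx]
      have h3 : 0 ≤ w ^ 2 * s₂ * c / (180 * A) := by positivity
      calc w ^ 2 * s₂ * c / (180 * A) = 1 * (w ^ 2 * s₂ * c / (180 * A)) := (one_mul _).symm
        _ ≤ (M ^ 2 * x) * (w ^ 2 * s₂ * c / (180 * A)) := mul_le_mul_of_nonneg_right h1 h3
        _ = M ^ 2 * (w ^ 2 * s₂ * c / (180 * A)) * x := by ring
    have hDD : 2 * s / A * (4 * x) + 1 + 3 * (2 * s / A * (M * w)) * (2 * (M * w) * C * L / s) +
        2 * (M ^ 2 * L ^ 4 / A) ≤ K0 A C w * x ^ 2 := by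
      have e : 2 * s / A * (4 * x) + 1 + 3 * (2 * s / A * (M * w)) * (2 * (M * w) * C * L / s) +
          2 * (M ^ 2 * L ^ 4 / A) =
          8 / A * (s * x) + 1 + 12 * (w ^ 2 * C) / A * (M ^ 2 * L) + 2 / A * (M ^ 2 * L ^ 4) := by
        field_simp
        ring
      rw [e]
      unfold K0
      have a0 : x ≤ x ^ 2 := by nlinarith only [hx1]
      have a1 : s * x ≤ x ^ 2 := by nlinarith only [hx1, hsx]
      have a2 : 1 ≤ x ^ 2 := by linarith only [a0, hx1]
      have a3 : M ^ 2 * L ≤ x ^ 2 := by linarith only [a0, hM1', hM2, hsx]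
      have a4 : M ^ 2 * L ^ 4 ≤ x ^ 2 := by linarith only [a0, hM2, hsx]
      have b1 : 8 / A * (s * x) ≤ 8 / A * x ^ 2 := mul_le_mul_of_nonneg_left a1 (by positivity)
      have b3 : 12 * (w ^ 2 * C) / A * (M ^ 2 * L) ≤ 12 * (w ^ 2 * C) / A * x ^ 2 :=
        mul_le_mul_of_nonneg_left a3 (by positivity)
      have b4 : 2 / A * (M ^ 2 * L ^ 4) ≤ 2 / A * x ^ 2 :=
        mul_le_mul_of_nonneg_left a4 (by positivity)
      have e2 : (8 / A + 1 + 12 * (w ^ 2 * C) / A + 2 / A) * x ^ 2 =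
        8 / A * x ^ 2 + x ^ 2 + 12 * (w ^ 2 * C) / A * x ^ 2 + 2 / A * x ^ 2 := by ring
      rw [e2]
      linarith only [a2, b1, b3, b4]
    have hDD0 : 0 < 2 * s / A * (4 * x) + 1 +
        3 * (2 * s / A * (M * w)) * (2 * (M * w) * C * L / s) +
        2 * (M ^ 2 * L ^ 4 / A) := by positivity
    have hK00 := K0_pos hA hC hw
    have hh0 := h0_pos hA hc hw hs₂
    have hc1 := c1_pos hA hC hc hw hs₂
    have hcX : c1 A C c w s₂ / x ^ 11 ≤ cG (2 * s / A * (M * w)) (M ^ 2 * L ^ 4 / A)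
        (2 * (M * w) * C * L / s) s₂ (M * w * c / s) (2 * s / A * (4 * x)) := by
      unfold cG
      have h1 : (1 / A) ^ 2 ≤ (M ^ 2 * L ^ 4 / A) ^ 2 :=
        pow_le_pow_left₀ (by positivity)
          (div_le_div_of_nonneg_right (by linarith only [hML4, hL24]) hA.le) 2
      have h2 : 4 * (2 * s / A * (4 * x) + 1 +
          3 * (2 * s / A * (M * w)) * (2 * (M * w) * C * L / s) +
          2 * (M ^ 2 * L ^ 4 / A)) ^ 4 ≤ 4 * (K0 A C w * x ^ 2) ^ 4 :=
        mul_le_mul_of_nonneg_left (pow_le_pow_left₀ hDD0.le hDD 4) (by norm_num)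
      have e3 : c1 A C c w s₂ / x ^ 11 =
          (h0 A c w s₂ / x) ^ 3 * (1 / A) ^ 2 / (4 * (K0 A C w * x ^ 2) ^ 4) := by
        unfold c1
        field_simp
      rw [e3]
      have hnum : (h0 A c w s₂ / x) ^ 3 * (1 / A) ^ 2 ≤
          etaG (2 * s / A * (M * w)) s₂ (M * w * c / s) ^ 3 * (M ^ 2 * L ^ 4 / A) ^ 2 :=
        mul_le_mul (pow_le_pow_left₀ (by positivity) hη 3) h1 (by positivity)
          (pow_nonneg (le_trans (by positivity) hη) 3)
      refine div_le_div₀ ?_ hnum (by positivity) h2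
      exact le_trans (by positivity) hnum
    have hcX0 : 0 < cG (2 * s / A * (M * w)) (M ^ 2 * L ^ 4 / A) (2 * (M * w) * C * L / s) s₂
        (M * w * c / s) (2 * s / A * (4 * x)) := lt_of_lt_of_le (by positivity) hcX
    have h1 : 2 * s / A * (M * w) / cG (2 * s / A * (M * w)) (M ^ 2 * L ^ 4 / A)
        (2 * (M * w) * C * L / s) s₂ (M * w * c / s)
        (2 * s / A * (4 * x)) ≤ 2 * w / (A * c1 A C c w s₂) * x ^ 12 := by
      calc 2 * s / A * (M * w) / cG (2 * s / A * (M * w)) (M ^ 2 * L ^ 4 / A)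
            (2 * (M * w) * C * L / s) s₂ (M * w * c / s) (2 * s / A * (4 * x))
          ≤ 2 * s / A * (M * w) / (c1 A C c w s₂ / x ^ 11) :=
            div_le_div_of_nonneg_left (by positivity) (by positivity) hcX
        _ = 2 * w / (A * c1 A C c w s₂) * ((s * M) * x ^ 11) := by
            field_simp
        _ ≤ 2 * w / (A * c1 A C c w s₂) * ((s * s) * x ^ 11) := by
            refine mul_le_mul_of_nonneg_left (mul_le_mul_of_nonneg_right ?_ (by positivity))
              (by positivity)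
            exact mul_le_mul_of_nonneg_left hMs1 hs0.le
        _ = 2 * w / (A * c1 A C c w s₂) * x ^ 12 := by rw [hss]; ring
    have h2 : ((4 * n * κ) ^ n) ^ 2 ≤ 1 / x ^ 15 := by
      have e : ((4 * n * κ) ^ n) ^ 2 = (16 * (n : ℝ) ^ 2 * (16 * (w ^ 2 * C) / L ^ 3)) ^ n := by
        rw [← pow_mul, mul_comm n 2, pow_mul, mul_pow, hκsq]
        congr 1
        ring
      rw [e]
      have h3 : 16 * (n : ℝ) ^ 2 * (16 * (w ^ 2 * C) / L ^ 3) ≤ Real.exp (-15) := by
        have h4 : (n : ℝ) ^ 2 ≤ (2 * L) ^ 2 := pow_le_pow_left₀ (Nat.cast_nonneg n) hn2 2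
        calc 16 * (n : ℝ) ^ 2 * (16 * (w ^ 2 * C) / L ^ 3)
            ≤ 16 * (2 * L) ^ 2 * (16 * (w ^ 2 * C) / L ^ 3) := by
              gcongr
          _ = 1024 * (w ^ 2 * C) / L := by field_simp; ring
          _ ≤ Real.exp (-15) := by
              rw [Real.exp_neg, div_le_iff₀ hL0, inv_mul_eq_div, le_div_iff₀ (Real.exp_pos _)]
              linarith only [k10, hLK]
      have h5 : Real.exp (-15) ^ n ≤ 1 / x ^ 15 := by
        rw [← Real.exp_nat_mul, ← hLe, ← Real.exp_nat_mul, one_div, ← Real.exp_neg]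
        apply Real.exp_le_exp.2
        push_cast
        linarith only [hn1]
      exact (pow_le_pow_left₀ (by positivity) h3 n).trans h5
    have h4 : 2 * (w * C) / x ≤ 2 * (M * w) * C * L / s * κ := by
      have a1 : 2 * (w * C) / s ≤ 2 * (M * w) * C * L / s := by
        refine div_le_div_of_nonneg_right ?_ hs0.le
        have h6 : 0 < w * C := by positivity
        have h7 : 2 * (M * w) * C * L = 2 * (w * C) * (M * L) := by ring
        rw [h7]
        nlinarith only [h6, hM1]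
      have a2 : 1 / s ≤ κ := by
        refine (sq_le_sq₀ (by positivity) hκ0.le).1 ?_
        rw [hκsq, div_pow, one_pow, sq s, hss]
        rw [div_le_div_iff₀ hx0 (by positivity)]
        rw [div_le_iff₀ (by positivity)] at k11
        have b1 : L ^ 3 ≤ K * (16 * (w ^ 2 * C)) * L ^ 5 := by
          have : 0 ≤ L ^ 5 := by positivity
          have h9 := mul_le_mul_of_nonneg_right k11 this
          linarith only [h9, hL35]
        have b2 : K * (16 * (w ^ 2 * C)) * L ^ 5 = 16 * (w ^ 2 * C) * (K * L ^ 5) := by ring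
        have b3 : 16 * (w ^ 2 * C) * (K * L ^ 5) ≤ 16 * (w ^ 2 * C) * x :=
          mul_le_mul_of_nonneg_left (hs5.trans hsx) (by positivity)
        linarith only [b1, b2, b3]
      calc 2 * (w * C) / x = 2 * (w * C) / s * (1 / s) := by rw [← hss]; field_simp
        _ ≤ 2 * (M * w) * C * L / s * κ := mul_le_mul a1 a2 (by positivity) (by positivity)
    refine le_trans ?_ h4
    calc 2 * s / A * (M * w) / cG (2 * s / A * (M * w)) (M ^ 2 * L ^ 4 / A)
            (2 * (M * w) * C * L / s) s₂ (M * w * c / s)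
            (2 * s / A * (4 * x)) * (2 * ((4 * n * κ) ^ n) ^ 2)
        ≤ 2 * w / (A * c1 A C c w s₂) * x ^ 12 * (2 * (1 / x ^ 15)) :=
          mul_le_mul h1 (mul_le_mul_of_nonneg_left h2 (by norm_num)) (by positivity) (by positivity)
      _ = 2 * (w * C) * (2 / (A * c1 A C c w s₂ * C)) * (1 / x ^ 3) := by
          field_simp
      _ ≤ 2 * (w * C) * x * (1 / x ^ 3) := by
          refine mul_le_mul_of_nonneg_right ?_ (by positivity)
          exact mul_le_mul_of_nonneg_left (k9.trans hKx) (by positivity)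
      _ = 2 * (w * C) / x * (1 / x) := by field_simp
      _ ≤ 2 * (w * C) / x * 1 := by
          refine mul_le_mul_of_nonneg_left ?_ (by positivity)
          rw [div_le_one hx0]
          exact hx1
      _ = 2 * (w * C) / x := mul_one _

theorem main : S_ASYW := by
  intro A C c w s₂ hA hC hc hw hs₂ hs₂1
  set K : ℝ := 2 + C + 192 * (w ^ 2 * C) + 4 * A + 65536 * (w ^ 2 * C) +
    (72000 * C) ^ 2 * (16 * (w ^ 2 * C)) / (s₂ * c) ^ 2 +
    17280 * (w * C) ^ 2 / c + c / (2 * C) + w ^ 2 +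
    2 / (A * c1 A C c w s₂ * C) + 1024 * (w ^ 2 * C) * Real.exp 15 +
    1 / (16 * (w ^ 2 * C)) with hK
  have hc1 := c1_pos hA hC hc hw hs₂
  have p1 : 0 ≤ 192 * (w ^ 2 * C) := by positivity
  have p3 : 0 ≤ 65536 * (w ^ 2 * C) := by positivity
  have p5 : 0 ≤ (72000 * C) ^ 2 * (16 * (w ^ 2 * C)) / (s₂ * c) ^ 2 := by positivity
  have p6 : 0 ≤ 17280 * (w * C) ^ 2 / c := by positivity
  have p7 : 0 ≤ c / (2 * C) := by positivity
  have p8 : 0 ≤ w ^ 2 := by positivity
  have p9 : 0 ≤ 2 / (A * c1 A C c w s₂ * C) := by positivity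
  have p10 : 0 ≤ 1024 * (w ^ 2 * C) * Real.exp 15 := by positivity
  have p11 : 0 ≤ 1 / (16 * (w ^ 2 * C)) := by positivity
  have hK2 : 2 ≤ K := by rw [hK]; linarith only [p1, p3, p5, p6, p7, p8, p9, p10, p11, hA, hC]
  -- eventually
  have t1 : ∀ᶠ d : ℕ in atTop, K ≤ Real.log d :=
    (Real.tendsto_log_atTop.comp tendsto_natCast_atTop_atTop).eventually_ge_atTop K
  have t2 : ∀ᶠ d : ℕ in atTop, K * Real.log d ^ 5 ≤ Real.sqrt d := by
    have hKpos : 0 < K := by linarith only [hK2]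
    have h := isLittleO_log_rpow_rpow_atTop (s := (1 / 2 : ℝ)) 5 (by norm_num)
    have h2 := (h.def (c := 1 / K) (by positivity))
    have h3 := tendsto_natCast_atTop_atTop (R := ℝ) |>.eventually h2
    filter_upwards [h3, t1] with d hd hd1
    have hlog : 0 ≤ Real.log d := by linarith only [hd1, hKpos]
    have e : Real.log (d : ℝ) ^ (5 : ℝ) = Real.log d ^ 5 := by
      rw [← Real.rpow_natCast]; norm_num
    rw [e, Real.norm_of_nonneg (by positivity), Real.norm_of_nonneg (by positivity),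
      ← Real.sqrt_eq_rpow] at hd
    calc K * Real.log d ^ 5 ≤ K * (1 / K * Real.sqrt d) := mul_le_mul_of_nonneg_left hd hKpos.le
      _ = Real.sqrt d := by field_simp
  obtain ⟨d₀, hd₀⟩ := eventually_atTop.1 (t1.and t2)
  refine ⟨d₀, fun d hd sg hsg1 hsg2 => ?_⟩
  obtain ⟨h1, h2⟩ := hd₀ d hd
  have hlog2 : 2 ≤ Real.log d := hK2.trans h1
  have hlog0 : 0 < Real.log d := by linarith only [hlog2]
  have hx0 : (0 : ℝ) < d := by
    rcases (Nat.cast_nonneg d : (0 : ℝ) ≤ d).eq_or_lt with h | h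
    · exfalso
      rw [← h, Real.log_zero] at hlog2
      linarith only [hlog2]
    · exact h
  have hsg0 : 0 < sg := lt_of_lt_of_le (by positivity) hsg1
  have hM1 : 1 ≤ sg * Real.log d := by
    rw [div_le_iff₀ hlog0] at hsg1
    exact hsg1
  have hM2 : sg ^ 2 * Real.log d ^ 4 ≤ Real.sqrt d := by
    rw [le_div_iff₀ (by positivity)] at hsg2
    have h3 : sg ^ 2 * Real.log d ^ 4 = (sg * Real.log d ^ 2) ^ 2 := by ring
    have h4 : ((d : ℝ) ^ (1 / 4 : ℝ)) ^ 2 = Real.sqrt d := by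
      rw [← Real.rpow_natCast, ← Real.rpow_mul hx0.le, Real.sqrt_eq_rpow]
      norm_num
    rw [h3, ← h4]
    exact pow_le_pow_left₀ (by positivity) hsg2 2
  obtain ⟨r1, r2, r3, r4, r5⟩ := core d ⌈Real.log d⌉₊ A C c w s₂ (Real.log d) K sg hA hC hc hw hs₂
    hs₂1 hM1 hM2 hsg0 hK2 h1 (Nat.le_ceil _) (by
      have := Nat.ceil_lt_add_one (a := Real.log d) (by linarith only [hlog2])
      linarith only [this, hlog2]) h2 (Real.exp_log hx0)
    (by rw [hK]; linarith only [p1, p3, p5, p6, p7, p8, p9, p10, p11, hA, hC])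
    (by rw [hK]; linarith only [p1, p3, p5, p6, p7, p8, p9, p10, p11, hA, hC])
    (by rw [hK]; linarith only [p1, p3, p5, p6, p7, p8, p9, p10, p11, hA, hC])
    (by rw [hK]; linarith only [p1, p3, p5, p6, p7, p8, p9, p10, p11, hA, hC])
    (by rw [hK]; linarith only [p1, p3, p5, p6, p7, p8, p9, p10, p11, hA, hC])
    (by rw [hK]; linarith only [p1, p3, p5, p6, p7, p8, p9, p10, p11, hA, hC])
    (by rw [hK]; linarith only [p1, p3, p5, p6, p7, p8, p9, p10, p11, hA, hC])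
    (by rw [hK]; linarith only [p1, p3, p5, p6, p7, p8, p9, p10, p11, hA, hC])
    (by rw [hK]; linarith only [p1, p3, p5, p6, p7, p8, p9, p10, p11, hA, hC])
    (by rw [hK]; linarith only [p1, p3, p5, p6, p7, p8, p9, p10, p11, hA, hC])
    (by rw [hK]; linarith only [p1, p3, p5, p6, p7, p8, p9, p10, p11, hA, hC])
  exact ⟨hsg0, r1, r2, r3, r4, _, r5⟩

end Pool.Agent.N955.HW.AsyW
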